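import Pool.Agent.Lib.HypArr.OctIneq
import Pool.Agent.Lib.HypArr.NefNN

/-!
# Sections of the divisors `h u^* H - E` from covers
-/

set_option autoImplicit false

open CategoryTheory AlgebraicGeometry HomogeneousLocalization IsLocalRing

namespace Pool.Agent.HypArr

open Pool.Agent.NefProd

attribute [local instance] MvPolynomial.gradedAlgebra

noncomputable section

/-- The line bundle `𝒪(D)` has a nonzero global section (a rational function `f ≠ 0` such that
`loc y * f` is regular at every `y`). -/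
def HasSection {X : Scheme.{0}} [AlgebraicGeometry.IsIntegral X] (D : CartierDivisor X) : Prop :=
  ∃ f : X.functionField, f ≠ 0 ∧ ∀ y, RegAt y (D.loc y * f)

variable {k : Type} [Field k] {n N : ℕ} {X : Scheme.{0}} [AlgebraicGeometry.IsIntegral X]

/-- A cover with sum at most `h` gives a nonzero section of `h u^* H - E`. -/
theorem hasSection_of_cover {u : X ⟶ PSpace k n}
    {l : Fin N → Fin (n + 1) → k} (hl0 : ∀ i, l i ≠ 0) {e : Fin N → Fin N → ℕ} {E : EffDivisor X}
    (hu : u (genericPoint X) = genericPoint (PSpace k n))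
    (hE : MonomialIdeal u l e E) {h : ℕ} {b : Fin N → ℕ} (hb : Cover e b)
    (hs : ∑ i, b i ≤ h) : HasSection (divisor u hu h E) := by
  set z0 := zz u hu (lin (Pi.single 0 1)) (lin_mem _) with hz0
  have hz00 : z0 ≠ 0 := zz_ne_zero u hu _ _ (lin_ne_zero single_ne_zero)
  have key : ∀ y, (divisor u hu h E).loc y *
      ((∏ i, zz u hu (lin (l i)) (lin_mem _) ^ b i) * z0 ^ (h - ∑ i, b i) * (z0 ^ h)⁻¹) =
      (inc y (mon u l b y) * (inc y (E.eq y))⁻¹) *
        (z0 / zz u hu (MvPolynomial.X (coord (u y))) (X_mem _)) ^ (h - ∑ i, b i) := fun y => by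
    rw [divisor_loc, inc_mon u hu]
    exact gg_identity _ b h hs _ _ z0 _ hz00 (zz_X_ne_zero u hu _)
  refine ⟨(∏ i, zz u hu (lin (l i)) (lin_mem _) ^ b i) * z0 ^ (h - ∑ i, b i) * (z0 ^ h)⁻¹,
    ?_, fun y => ?_⟩
  · refine mul_ne_zero (mul_ne_zero ?_ (pow_ne_zero _ hz00)) (inv_ne_zero (pow_ne_zero _ hz00))
    exact Finset.prod_ne_zero_iff.2 fun i _ =>
      pow_ne_zero _ (zz_ne_zero u hu _ _ (lin_ne_zero (hl0 i)))
  · rw [key]
    refine (regAt_inc_div (E.ne_zero y) (hE.dvd y hb)).mul ?_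
    exact (regAt_zz u hu _ _ _ _ y (coord_spec _)).pow _

/-- **Theorem O**, from the existence of the lines. -/
theorem hasSection_of_nef [IsAlgClosed k] [CharZero k] (hline : OctLineM k) (hN : N ≤ 8)
    (l : Fin N → Fin (3 + 1) → k)
    (hl : ∀ s : Finset (Fin N), s.card ≤ 3 + 1 → LinearIndependent k (fun i : s => l i))
    (f : Fin N → Fin N → ℕ) (hf : ∀ i j, f i j = f j i)
    (u : X ⟶ PSpace k 3) [Surjective u] [IsProper (u ≫ PSpace.toK k 3)]
    (hu : u (genericPoint X) = genericPoint (PSpace k 3)) (E : EffDivisor X)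
    (hE : MonomialIdeal u l (fun i j => 2 * f i j) E) (h : ℕ)
    (hnef : (divisor u hu h E).Nef (u ≫ PSpace.toK k 3)) :
    HasSection (divisor u hu h E) := by
  have hl0 : ∀ i, l i ≠ 0 := fun i => by
    have h1 := hl {i} (by simp)
    exact h1.ne_zero ⟨i, by simp⟩
  obtain ⟨b, hb, hs⟩ := octCover hline hN hl hf (nn_of_nef u hu l hl _ E hE h hnef)
  exact hasSection_of_cover hl0 hu hE hb hs

end

end Pool.Agent.HypArr
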