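import Pool.Agent.Lib.HypArr.CombG
import Pool.Agent.Lib.HypArr.TheoremD

/-!
# Nef divisors over normal crossing divisors, arbitrary Picard number
-/

set_option autoImplicit false

open CategoryTheory AlgebraicGeometry IsLocalRing
open scoped PowerSeries

namespace Pool.Agent.HypArr

open Pool.Agent.NefProd

noncomputable section

variable {k : Type} [Field k] {N : ℕ} {P : Scheme.{0}} [AlgebraicGeometry.IsIntegral P]
  {X : Scheme.{0}} [AlgebraicGeometry.IsIntegral X]

/-- The inequality on a test curve. -/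
theorem hypG_of_nef [IsAlgClosed k] [CharZero k] {fP : P ⟶ Spec (.of k)} [IsProper fP] (u : X ⟶ P)
    [Surjective u] [IsProper (u ≫ fP)] (hu : u (genericPoint X) = genericPoint P)
    (S : Fin N → EffDivisor P) (hS : IsSNC fP S) (A : CartierDivisor P) (d : Fin N → ℕ) (h : ℤ)
    (hcurve : ∀ R : Finset (Fin N), ∑ i ∈ R, (d i + max (d i) 1) ≤ ∑ i, d i →
      ∃ (C : Curve fP) (c : ℤ), 0 < c ∧ (∀ i, C.deg (S i).toCartier = c * d i) ∧
        C.deg A = c * h ∧ ∀ i ∈ R, (S i).On (C.gen (closedPoint C.F)))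
    (e : Fin N → Fin N → ℕ) (he : ∀ i j, e i j = e j i)
    (E : EffDivisor X) (hE : MonomialIdealS u S e E)
    (hnef : (divisorS u hu A E).Nef (u ≫ fP)) : HypG d e h := by
  classical
  intro R hR ω
  obtain ⟨C, c, hc0, hCS, hCA, hC⟩ := hcurve R hR
  set R' : Finset (Fin N) := Finset.univ.filter fun i => (S i).On (C.gen (closedPoint C.F))
    with hR'
  have hmem : ∀ i, i ∈ R' ↔ (S i).On (C.gen (closedPoint C.F)) := fun i => by
    rw [hR', Finset.mem_filter]
    exact ⟨fun h => h.2, fun h => ⟨Finset.mem_univ _, h⟩⟩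
  have hsub : R ⊆ R' := fun i hi => (hmem i).2 (hC i hi)
  obtain ⟨w, b, hw0, hb, hexp, hmin⟩ :=
    Pool.HypArr.exists_exposed e R' (fun i => if i ∈ R then ω i else 0)
  obtain ⟨q, -, hq2, hq3⟩ := exists_arc_family fP S hS C.gen C.gen_comp
    (fun i => if i ∈ R' then w i else 0) (fun i => by
      rw [← hmem]
      by_cases hi : i ∈ R'
      · rw [if_pos hi]
        exact ⟨fun _ => hw0 i hi, fun _ => hi⟩
      · rw [if_neg hi]
        exact ⟨fun h => absurd h hi, fun h => absurd h (lt_irrefl 0)⟩)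
  have hnn := nonneg_on_curve u hu S e E hE A hnef C R' hmem w b hb hexp q hq2 (fun i hi => by
    have h1 := hq3 i
    rw [if_pos hi] at h1
    exact h1)
  set xx : Fin N → ℕ := fun i => if i ∈ R' then b i else R'.sup fun j => e i j - b j with hxx
  refine ⟨xx, ?_, ?_, ?_⟩
  · intro i hi j hji
    have hi' := hsub hi
    by_cases hj : j ∈ R'
    · simp only [hxx, if_pos hi', if_pos hj]
      exact hb i hi' j hj (Ne.symm hji)
    · simp only [hxx, if_pos hi', if_neg hj]
      have h1 : e j i - b i ≤ R'.sup fun j' => e j j' - b j' :=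
        Finset.le_sup (f := fun j' => e j j' - b j') hi'
      have h2 := he i j
      omega
  · have h1 : 0 ≤ C.deg (subComb A S xx) := by
      have h2 := (nonnegOn_iff_deg C _).1 hnn
      rwa [toCartier_comb] at h2
    rw [curve_deg_subComb, hCA] at h1
    have h2 : ∑ i, (xx i : ℤ) * C.deg (S i).toCartier = c * ∑ i, (d i : ℤ) * xx i := by
      rw [Finset.mul_sum]
      refine Finset.sum_congr rfl fun i _ => ?_
      rw [hCS]
      ring
    rw [h2, ← mul_sub] at h1
    have h3 := nonneg_of_mul_nonneg_right h1 hc0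
    linarith
  · intro a ha
    have h1 := hmin a fun i _ j _ hij => ha i j hij
    have h2 : ∀ t : Fin N → ℕ, ∑ i ∈ R', (if i ∈ R then ω i else 0) * t i =
        ∑ i ∈ R, ω i * t i := fun t => by
      simp_rw [ite_mul, zero_mul]
      rw [Finset.sum_ite_mem, Finset.inter_eq_right.2 hsub]
    rw [h2, h2] at h1
    refine le_trans (le_of_eq ?_) h1
    refine Finset.sum_congr rfl fun i hi => ?_
    simp only [hxx, if_pos (hsub hi)]

/-- **Theorem G.** -/
theorem theoremG [IsAlgClosed k] [CharZero k] {fP : P ⟶ Spec (.of k)} [IsProper fP] (u : X ⟶ P)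
    [Surjective u] [IsProper (u ≫ fP)] (hu : u (genericPoint X) = genericPoint P)
    (S : Fin N → EffDivisor P) (hS : IsSNC fP S) (A : CartierDivisor P)
    {Γ : Type} (d : Γ → Fin N → ℕ) (h : Γ → ℤ)
    (hcurve : ∀ (γ : Γ) (R : Finset (Fin N)), ∑ i ∈ R, (d γ i + max (d γ i) 1) ≤ ∑ i, d γ i →
      ∃ (C : Curve fP) (c : ℤ), 0 < c ∧ (∀ i, C.deg (S i).toCartier = c * d γ i) ∧
        C.deg A = c * h γ ∧ ∀ i ∈ R, (S i).On (C.gen (closedPoint C.F)))
    (hsemi : ∀ b : Fin N → ℕ, (∀ γ, ∑ i, (d γ i : ℤ) * b i ≤ h γ) → (subComb A S b).Semiample)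
    (e : Fin N → Fin N → ℕ) (he : ∀ i j, e i j = e j i)
    (E : EffDivisor X) (hE : MonomialIdealS u S e E) :
    ((divisorS u hu A E).Nef (u ≫ fP) ↔ (divisorS u hu A E).Semiample) ∧
      ((divisorS u hu A E).Nef (u ≫ fP) ↔
        ∀ (γ : Γ) (a : Fin N → ℕ), Cover e a → Tight e a → ∑ i, (d γ i : ℤ) * a i ≤ h γ) := by
  have h1 : (divisorS u hu A E).Nef (u ≫ fP) →
      ∀ (γ : Γ) (a : Fin N → ℕ), Cover e a → Tight e a → ∑ i, (d γ i : ℤ) * a i ≤ h γ :=
    fun hn γ a ha ht => tight_degree_le_zero he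
      (hypG_of_nef u hu S hS A (d γ) (h γ) (hcurve γ) e he E hE hn) ha ht
  have h2 : (∀ (γ : Γ) (a : Fin N → ℕ), Cover e a → Tight e a → ∑ i, (d γ i : ℤ) * a i ≤ h γ) →
      (divisorS u hu A E).Semiample := fun hle =>
    semiample_of_tight u hu S e he E hE A fun a ha ht => hsemi a fun γ => hle γ a ha ht
  have h3 : (divisorS u hu A E).Semiample → (divisorS u hu A E).Nef (u ≫ fP) :=
    fun hs => nef_of_semiample hs
  exact ⟨⟨fun hn => h2 (h1 hn), h3⟩, ⟨h1, fun hle => h3 (h2 hle)⟩⟩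

end

end Pool.Agent.HypArr
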